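import Mathlib

set_option autoImplicit false

/-!
# FPow: definitions for the multiple averages along squares of integer parts of powers

Paper proof: `Pool/Agent/FPow/Blueprint.lean.txt`. Everything lives in the namespace `FPow`.
-/

open MeasureTheory Filter Topology

namespace FPow

noncomputable section

/-! ### Elementary notions -/

/-- `e(t) = exp (2 pi i t)`. -/
def ee (t : ℝ) : ℂ := Complex.exp (((2 * Real.pi * t : ℝ) : ℂ) * Complex.I)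

/-- Average over `n < N`. -/
def av (N : ℕ) (u : ℕ → ℂ) : ℂ := (N : ℂ)⁻¹ * ∑ n ∈ Finset.range N, u n

/-- `z` for even `n`, the conjugate for odd `n`. -/
def cj (n : ℕ) (z : ℂ) : ℂ := if Even n then z else (starRingEnd ℂ) z

variable {X : Type} [MeasurableSpace X]

/-- Square of the `L^2` norm. -/
def nsq (μ : Measure X) (u : X → ℂ) : ℝ := ∫ x, ‖u x‖ ^ 2 ∂μ

/-- Measurable and bounded by `1`. -/
def Bd (f : X → ℂ) : Prop := Measurable f ∧ ∀ x, ‖f x‖ ≤ 1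

/-- The maps `S a`, `a ∈ ℤ`, form a measure preserving action of the integers. -/
structure IsAct (μ : Measure X) (S : ℤ → X → X) : Prop where
  zero : ∀ x, S 0 x = x
  add : ∀ a b x, S (a + b) x = S a (S b x)
  mp : ∀ a, MeasurePreserving (S a) μ μ

/-! ### Box averages and null functions -/

/-- Multiplicative difference `f (S_h x) * conj (f x)`. -/
def Dl (S : ℤ → X → X) (h : ℤ) (f : X → ℂ) : X → ℂ :=
  fun x => f (S h x) * (starRingEnd ℂ) (f x)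

/-- Box averages: `Q [] f = |∫ f|^2`, and `Q (j :: l) f` is the average of `Q l (Dl (a - b) f)`
over `a, b < 2 ^ j`. -/
def Q (μ : Measure X) (S : ℤ → X → X) : List ℕ → (X → ℂ) → ℝ
  | [], f => ‖∫ x, f x ∂μ‖ ^ 2
  | j :: l, f => (∑ a ∈ Finset.range (2 ^ j), ∑ b ∈ Finset.range (2 ^ j),
      Q μ S l (Dl S ((a : ℤ) - (b : ℤ)) f)) / ((2 : ℝ) ^ j * (2 : ℝ) ^ j)

/-- `f` is null: all its box averages tend to zero. -/
def Null (μ : Measure X) (S : ℤ → X → X) (f : X → ℂ) : Prop :=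
  ∀ s : ℕ, Tendsto (fun j : ℕ => Q μ S (List.replicate s j) f) atTop (𝓝 0)

/-- The infimum of the `s`-dimensional box averages over the dyadic scales. -/
def Lz (μ : Measure X) (S : ℤ → X → X) (s : ℕ) (f : X → ℂ) : ℝ :=
  ⨅ j : ℕ, Q μ S (List.replicate s j) f

/-- The `r`-fold difference function: product over `A ⊆ {0, .., r-1}` of
`f (S_{sum of h_i, i ∈ A} x)`, conjugated when `r - |A|` is odd. -/
def DlF {r : ℕ} (S : ℤ → X → X) (h : Fin r → ℤ) (f : X → ℂ) : X → ℂ :=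
  fun x => ∏ A : Finset (Fin r), cj (r - A.card) (f (S (∑ i ∈ A, h i) x))

/-- Replace the coordinates in `A` of `b` by those of `b'`. -/
def mix {r : ℕ} {κ : Type} (b b' : Fin r → κ) (A : Finset (Fin r)) : Fin r → κ :=
  fun i => if i ∈ A then b' i else b i

/-! ### Abstract families for the polynomial exhaustion argument -/

/-- Index data: a filter `F` on `I`; for every `i : I` a length `K i`, a finite set `s i` of
places with weights `ν i` of total mass at most one, and evaluations `ev i ω : R →+ ℤ`. -/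
structure Fam (R : Type) [CommRing R] where
  I : Type
  Ω : Type
  F : Filter I
  K : I → ℕ
  s : I → Finset Ω
  ν : I → Ω → ℝ
  ev : I → Ω → (R →+ ℤ)
  hK : Tendsto K F atTop
  hν : ∀ i ω, 0 ≤ ν i ω
  hs : ∀ i, ∑ ω ∈ s i, ν i ω ≤ 1

/-- The averages attached to the polynomials `p j`, with the function `f` at the distinguished
index `st` and arbitrary bounded functions elsewhere, are negligible. -/
def Neg {R : Type} [CommRing R] (μ : Measure X) (S : ℤ → X → X) (P : Fam R)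
    {ι : Type} [Fintype ι] (p : ι → Polynomial R) (st : ι) (f : X → ℂ) : Prop :=
  ∀ ε : ℝ, 0 < ε → ∀ᶠ i in P.F, ∀ (c : P.Ω → ℕ → ℂ) (G : P.Ω → ι → X → ℂ),
    (∀ ω k, ‖c ω k‖ ≤ 1) → (∀ ω j, Bd (G ω j)) → (∀ ω, G ω st = f) →
    ∑ ω ∈ P.s i, P.ν i ω * nsq μ (fun x => av (P.K i) (fun k =>
      c ω k * ∏ j, G ω j (S (P.ev i ω ((p j).eval (k : R))) x))) ≤ ε

/-- Admissible families of polynomials of degree at most `D`. -/
def St {R : Type} [CommRing R] (Sg : AddSubgroup R) (lam : R →+ ℤ) (D : ℕ)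
    {ι : Type} (p : ι → Polynomial R) (st : ι) : Prop :=
  (∀ j, (p j).natDegree ≤ D) ∧ (∀ j, (p j).coeff D ∈ Sg) ∧ lam ((p st).coeff D) ≠ 0 ∧
    ∀ j, j ≠ st → lam ((p j).coeff D) ≠ lam ((p st).coeff D)

/-- The family after one van der Corput step with shift `h` and subtraction of `p q`: the index
`inl i` is for `p i - p q`, the index `inr i` for the shifted polynomial minus `p q`. -/
def newp {R : Type} [CommRing R] {ι : Type} (p : ι → Polynomial R) (q : ι) (h : ℕ) :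
    {x : ι ⊕ ι // x ≠ Sum.inl q} → Polynomial R :=
  fun x => Sum.elim (fun i => p i - p q)
    (fun i => (p i).comp (Polynomial.X + Polynomial.C (h : R)) - p q) x.1

/-- The input at the end of the exhaustion argument. -/
def SS {R : Type} [CommRing R] (μ : Measure X) (S : ℤ → X → X) (P : Fam R)
    (Sg : AddSubgroup R) (lam : R →+ ℤ) (f : X → ℂ) : Prop :=
  ∀ (J : Type) [Fintype J] (e : J → R) (g : J → X → ℂ), 2 ≤ Fintype.card J →
    (∀ j, e j ∈ Sg) → Function.Injective (fun j => lam (e j)) →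
    (∀ j, g j = f ∨ g j = fun x => (starRingEnd ℂ) (f x)) →
    Tendsto (fun i => ∑ ω ∈ P.s i, P.ν i ω * ‖∫ x, ∏ j, g j (S (P.ev i ω (e j)) x) ∂μ‖)
      P.F (𝓝 0)

/-! ### Floors of powers -/

/-- `floor (n ^ c)`. -/
def pw (c : ℝ) (n : ℕ) : ℤ := ⌊(n : ℝ) ^ c⌋

/-- A slowly varying integer sequence `floor (β n ^ δ + σ)`. -/
def slow (β δ σ : ℝ) (n : ℕ) : ℤ := ⌊β * (n : ℝ) ^ δ + σ⌋

/-- Positive non-integers. -/
def GoodC {k : ℕ} (c : Fin k → ℝ) : Prop := ∀ i, 0 < c i ∧ ∀ m : ℤ, c i ≠ (m : ℝ)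

/-- Generalised binomial coefficient. -/
def bin (c : ℝ) (u : ℕ) : ℝ := (∏ v ∈ Finset.range u, (c - (v : ℝ))) / (u.factorial : ℝ)

/-- Degree of `n ^ c`. -/
def dg (c : ℝ) : ℕ := ⌊c⌋₊

/-- Taylor coefficient of order `u` of `x ^ c` at `a`. -/
def bb (c : ℝ) (u : ℕ) (a : ℝ) : ℝ := bin c u * a ^ (c - (u : ℝ))

/-- Periodic tent function around `u / M`, of width `1 / M`. -/
def tent (M u : ℕ) (θ : ℝ) : ℝ :=
  max 0 (1 - (M : ℝ) * |θ - (u : ℝ) / M - round (θ - (u : ℝ) / M)|)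

/-- Index set of the Taylor coefficients. -/
abbrev JJ {k : ℕ} (c : Fin k → ℝ) : Type := Σ i : Fin k, Fin (dg (c i) + 1)

/-- Partition of unity in terms of the fractional parts of the Taylor coefficients at `a`. -/
def phi {k : ℕ} (c : Fin k → ℝ) (M : ℕ) (κ : JJ c → ℕ) (a : ℝ) : ℝ :=
  ∏ p : JJ c, tent M (κ p) (bb (c p.1) (p.2 : ℕ) a)

/-- Structure of the floors along the progression `n, n + r, .., n + (K-1) r`. The parameter `a`
is the beginning of the window, `q` a modulus. -/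
def StrAt {k : ℕ} (c : Fin k → ℝ) (q a n r K : ℕ) (E : Fin k → ℕ → ℤ) : Prop :=
  ∀ i, (∀ t < K, pw (c i) (n + r * t) =
      ∑ u ∈ Finset.range (dg (c i) + 1), E i u * (t : ℤ) ^ u) ∧
    (∀ u, 1 ≤ u → (q : ℤ) ∣ E i u) ∧
    (1 ≤ dg (c i) → E i (dg (c i)) =
      round ((r : ℝ) ^ (dg (c i)) * bb (c i) (dg (c i)) (a : ℝ)))

/-- Admissible exponents in trigonometric sums. -/
def KSup (κ : ℝ →₀ ℝ) : Prop := ∀ γ ∈ κ.support, 0 < γ ∧ ∀ m : ℤ, γ ≠ (m : ℝ)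

/-- The function `sum of κ_γ n ^ γ`. -/
def ksum (κ : ℝ →₀ ℝ) (x : ℝ) : ℝ := κ.sum (fun γ b => b * x ^ γ)

/-- Mean of `e (τ r^2)`: Gauss mean for rational `τ`, zero for irrational `τ`. -/
def Gs (τ : ℝ) : ℂ :=
  open Classical in
  if h : ∃ q : ℚ, (q : ℝ) = τ then av h.choose.den (fun r => ee (τ * (r : ℝ) ^ 2)) else 0

/-! ### Eigenfunctions and the rational Kronecker factor -/

/-- Unimodular eigenfunction with eigenvalue `e(t)`. -/
def EigF (μ : Measure X) (S : ℤ → X → X) (t : ℝ) (χ : X → ℂ) : Prop :=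
  Measurable χ ∧ (∀ x, ‖χ x‖ = 1) ∧ ∀ᵐ x ∂μ, χ (S 1 x) = ee t * χ x

/-- Orthogonality to all periodic functions. -/
def RatOrth (μ : Measure X) (S : ℤ → X → X) (f : X → ℂ) : Prop :=
  ∀ q : ℕ, 1 ≤ q → ∀ φ : X → ℂ, Bd φ → (∀ᵐ x ∂μ, φ (S (q : ℤ) x) = φ x) →
    ∫ x, f x * φ x ∂μ = 0

/-! ### Mixed averages: functions below level `l`, scalars from level `l` on -/

/-- One term. -/
def term {k : ℕ} (a : Fin k → ℕ → ℤ) (S : ℤ → X → X) (l : ℕ) (f : Fin k → X → ℂ)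
    (t : Fin k → ℝ) (n : ℕ) (x : X) : ℂ :=
  ∏ i : Fin k, if (i : ℕ) < l then f i (S (a i n) x) else ee (t i * (a i n : ℝ))

/-- The averages. -/
def AV {k : ℕ} (a : Fin k → ℕ → ℤ) (S : ℤ → X → X) (l : ℕ) (f : Fin k → X → ℂ)
    (t : Fin k → ℝ) (N : ℕ) (x : X) : ℂ := av N (fun n => term a S l f t n x)

/-- Vanishing claim at level `l`. -/
def ClaimA {k : ℕ} (μ : Measure X) (S : ℤ → X → X) (a : Fin k → ℕ → ℤ) (l : ℕ) : Prop :=
  ∀ (f : Fin k → X → ℂ) (t : Fin k → ℝ), (∀ i, Bd (f i)) →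
    ((∃ i : Fin k, l ≤ (i : ℕ) ∧ Irrational (t i)) ∨
      (∃ i : Fin k, (i : ℕ) < l ∧ RatOrth μ S (f i))) →
    Tendsto (fun N => nsq μ (AV a S l f t N)) atTop (𝓝 0)

/-- Convergence claim at level `l`. -/
def ClaimB {k : ℕ} (μ : Measure X) (S : ℤ → X → X) (a : Fin k → ℕ → ℤ) (l : ℕ) : Prop :=
  ∀ (f : Fin k → X → ℂ) (t : Fin k → ℝ), (∀ i, Bd (f i)) →
    (∀ ε : ℝ, 0 < ε → ∃ N0 : ℕ, ∀ N M : ℕ, N0 ≤ N → N0 ≤ M →
      nsq μ (fun x => AV a S l f t N x - AV a S l f t M x) ≤ ε) ∧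
    (∀ i : Fin k, l ≤ (i : ℕ) → ∀ ε : ℝ, 0 < ε →
      ∀ᶠ N in atTop, nsq μ (AV a S l f t N) ≤ ‖Gs (t i)‖ ^ 2 + ε)

/-- First half of the vanishing claim at level `l + 1`. -/
def ClaimC {k : ℕ} (μ : Measure X) (S : ℤ → X → X) (a : Fin k → ℕ → ℤ) (l : ℕ) : Prop :=
  ∀ (f : Fin k → X → ℂ) (t : Fin k → ℝ), (∀ i, Bd (f i)) →
    ((∃ i : Fin k, l + 1 ≤ (i : ℕ) ∧ Irrational (t i)) ∨
      (∃ i : Fin k, (i : ℕ) < l ∧ RatOrth μ S (f i))) →
    Tendsto (fun N => nsq μ (AV a S (l + 1) f t N)) atTop (𝓝 0)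

/-- Control by null functions for the top index `l`, with arbitrary bounded weights. -/
def HSat {k : ℕ} (a : Fin k → ℕ → ℤ) (l : Fin k) : Prop :=
  ∀ (X : Type) [MeasurableSpace X] (μ : Measure X) [IsProbabilityMeasure μ]
    (S : ℤ → X → X), IsAct μ S → ∀ f : Fin k → X → ℂ, (∀ i, Bd (f i)) → Null μ S (f l) →
    ∀ w : ℕ → ℂ, (∀ n, ‖w n‖ ≤ 1) →
    Tendsto (fun N => nsq μ (fun x => av N (fun n =>
      w n * ∏ i ∈ Finset.Iic l, f i (S (a i n) x)))) atTop (𝓝 0)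

/-- Control by null functions for every top index. -/
def HSINF {k : ℕ} (a : Fin k → ℕ → ℤ) : Prop := ∀ l : Fin k, HSat a l

/-- The sequences of the problem, `floor (n ^ c_i) ^ 2`. -/
def sqc {k : ℕ} (c : Fin k → ℝ) (i : Fin k) (n : ℕ) : ℤ := (pw (c i) n) ^ 2

/-- `σ` is a spectral measure of `f`; it lives on `[0, 1)`. -/
def IsSpec (μ : Measure X) (S : ℤ → X → X) (f : X → ℂ) (σ : Measure ℝ) : Prop :=
  σ (Set.Ico 0 1)ᶜ = 0 ∧
  ∀ n : ℤ, ∫ x, f (S n x) * (starRingEnd ℂ) (f x) ∂μ = ∫ t : ℝ, ee ((n : ℝ) * t) ∂σ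

/-- The diagonal action on the square. -/
def SX (S : ℤ → X → X) : ℤ → X × X → X × X := fun a z => (S a z.1, S a z.2)

/-- Exponential sums. -/
def HE12 {k : ℕ} (a : Fin k → ℕ → ℤ) : Prop :=
  ∀ τ : Fin k → ℝ, Tendsto (fun N => av N (fun n => ee (∑ i, τ i * (a i n : ℝ)))) atTop
    (𝓝 (∏ i, Gs (τ i)))

/-- Conditions on the bounding function of the degree lowering. -/
def GamOK (γ : ℝ → ℝ) : Prop :=
  (∀ t, 0 ≤ γ t ∧ γ t ≤ 1) ∧ (∀ t, γ (t + 1) = γ t) ∧ (∀ t, γ (-t) = γ t) ∧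
    ∀ η : ℝ, 0 < η → {t : ℝ | 0 ≤ t ∧ t < 1 ∧ η ≤ γ t}.Finite

/-- Bound for the averages of the lower functions with the weight `e(t b(n))`. -/
def CBd {k : ℕ} (μ : Measure X) (S : ℤ → X → X) (a : Fin k → ℕ → ℤ) (I : Finset (Fin k))
    (b : ℕ → ℤ) (γ : ℝ → ℝ) : Prop :=
  ∀ (f : Fin k → X → ℂ) (t : ℝ), (∀ i, Bd (f i)) → ∀ ε : ℝ, 0 < ε → ∀ᶠ N in atTop,
    nsq μ (fun x => av N (fun n => ee (t * (b n : ℝ)) * ∏ i ∈ I, f i (S (a i n) x)))
      ≤ (γ t) ^ 2 + ε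

/-- Conclusion of the interchange argument for the function `F`. -/
def ICP (μ : Measure X) (S : ℤ → X → X) (γ : ℝ → ℝ) (F : X → ℂ) : Prop :=
  ∀ (r : ℕ), 1 ≤ r → ∀ (j : ℕ) (o : Fin r → ℤ) (c : (Fin r → Fin (2 ^ j)) → ℂ)
    (t : (Fin r → Fin (2 ^ j)) → ℝ) (χ : (Fin r → Fin (2 ^ j)) → X → ℂ),
    (∀ b, ‖c b‖ ≤ 1) → (∀ b, EigF μ S (t b) (χ b)) →
    ‖(((2 : ℂ) ^ j) ^ r)⁻¹ * ∑ b : Fin r → Fin (2 ^ j),
        c b * ∫ x, DlF S (fun i => o i + ((b i : ℕ) : ℤ)) F x * (starRingEnd ℂ) (χ b x) ∂μ‖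
        ^ (2 ^ r) ≤
      (((2 : ℝ) ^ j) ^ r * ((2 : ℝ) ^ j) ^ r)⁻¹ *
        ∑ b : Fin r → Fin (2 ^ j), ∑ b' : Fin r → Fin (2 ^ j),
          ‖c b‖ * γ (∑ A : Finset (Fin r), (-1 : ℝ) ^ A.card * t (mix b b' A))

/-! ### Slow functions of a real variable -/

/-- Uniform mean zero. -/
def UMZ (Φ : ℝ → ℂ) : Prop :=
  ∀ ε : ℝ, 0 < ε → ∃ L0 : ℝ, ∀ L : ℝ, L0 ≤ L → ∀ Y : ℝ, 0 ≤ Y →
    ‖∫ y in Y..(Y + L), Φ y‖ ≤ ε * L

/-- Slowly varying on windows of bounded length, up to density zero. -/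
def SlowR (Ψ : ℝ → ℂ) : Prop :=
  ∀ L ε : ℝ, 0 < L → 0 < ε → Tendsto (fun Z : ℝ =>
    (volume {z : ℝ | 0 ≤ z ∧ z ≤ Z ∧ ∃ l : ℝ, 0 ≤ l ∧ l ≤ L ∧ ε < ‖Ψ (z + l) - Ψ z‖}).toReal / Z)
    atTop (𝓝 0)

end

end FPow
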