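import Pool.Agent.FPow.Targets

set_option autoImplicit false

/-!
# FPow: the abstract theorem from its parts
-/

open MeasureTheory Filter Topology

namespace FPow

namespace MainAbs_

theorem ee_zero : ee 0 = 1 := by simp [ee]

theorem ee_add (s t : ℝ) : ee (s + t) = ee s * ee t := by
  unfold ee
  rw [← Complex.exp_add]
  congr 1
  push_cast
  ring

theorem ee_sum {ι : Type} (s : Finset ι) (t : ι → ℝ) :
    ee (∑ i ∈ s, t i) = ∏ i ∈ s, ee (t i) := by
  classical
  induction s using Finset.induction_on with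
  | empty => simp [ee_zero]
  | insert a s ha ih => rw [Finset.sum_insert ha, Finset.prod_insert ha, ee_add, ih]

end MainAbs_

open MainAbs_

theorem pMAINABS (h1 : T_C1) (h2 : T_C2) (h3 : T_AB) : T_MAINABS := by
  intro X _ μ _ S hS herg k a hsinf he f hf ε hε
  have base : ClaimA μ S a 0 := by
    intro f t hf hor
    rcases hor with ⟨i, _, hi⟩ | ⟨i, hi, _⟩
    · have hlim := he t
      have hz : ∏ i, Gs (t i) = 0 := by
        apply Finset.prod_eq_zero (Finset.mem_univ i)
        unfold Gs
        rw [dif_neg]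
        rintro ⟨q, hq⟩
        exact hi ⟨q, hq⟩
      rw [hz] at hlim
      have hAV : ∀ N, nsq μ (AV a S 0 f t N) =
          ‖av N (fun n => ee (∑ i, t i * (a i n : ℝ)))‖ ^ 2 := by
        intro N
        unfold nsq AV term
        simp only [Nat.not_lt_zero, if_false, ← ee_sum]
        simp
      simp only [hAV]
      have := (hlim.norm).pow 2
      simpa using this
    · exact absurd hi (Nat.not_lt_zero _)
  have main : ∀ l : ℕ, l ≤ k → ClaimA μ S a l ∧ ClaimB μ S a l := by
    intro l
    induction l with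
    | zero => intro _; exact ⟨base, h3 X μ S hS k a he 0 base⟩
    | succ l ih =>
      intro hl
      obtain ⟨hA, hB⟩ := ih (Nat.le_of_succ_le hl)
      have hC := h1 X μ S hS herg k a hsinf l hl hA hB
      have hA' := h2 X μ S hS herg k a he l hl hC
      exact ⟨hA', h3 X μ S hS k a he (l + 1) hA'⟩
  have hB := (main k le_rfl).2 f (fun _ => 0) hf
  obtain ⟨N0, hN0⟩ := hB.1 ε hε
  refine ⟨N0, fun N M hN hM => ?_⟩
  have := hN0 N M hN hM
  have hAV : ∀ N x, AV a S k f (fun _ => 0) N x = av N (fun n => ∏ i, f i (S (a i n) x)) := by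
    intro N x
    unfold AV term
    simp
  simpa only [hAV] using this

/-- Everything together, modulo the two analytic inputs and the reductions. -/
theorem pALL (h1 : T_C1) (h2 : T_C2) (h3 : T_AB) (hs1 : T_SINF1) (hs0 : T_SINF0)
    (he : T_E12) (hfin : T_FIN) :
    ∀ (k : ℕ) (c : Fin k → ℝ), Function.Injective c →
      (∀ i, 0 < c i ∧ ∀ m : ℤ, c i ≠ (m : ℝ)) →
      ∀ (X : Type) [MeasurableSpace X] (μ : MeasureTheory.Measure X)
        [MeasureTheory.IsProbabilityMeasure μ] (T : X → X),
        MeasureTheory.MeasurePreserving T μ μ →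
        ∀ f : Fin k → X → ℝ, (∀ i, Measurable (f i)) →
          (∀ i, ∃ C : ℝ, ∀ x, |f i x| ≤ C) →
          ∃ g : X → ℝ, MeasureTheory.MemLp g 2 μ ∧
            Filter.Tendsto
              (fun N : ℕ => MeasureTheory.eLpNorm
                (fun x => (1 / (N : ℝ)) * ∑ n ∈ Finset.Icc 1 N,
                    ∏ i : Fin k, f i (T^[⌊(n : ℝ) ^ c i⌋₊ ^ 2] x) - g x) 2 μ)
              Filter.atTop (nhds 0) := by
  refine hfin ?_
  intro k c hc hmono X _ μ _ S hS herg f hf
  refine pMAINABS h1 h2 h3 X μ S hS herg k (sqc c) ?_ (he k c hc hmono) f hf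
  intro l
  rcases Nat.eq_zero_or_pos (dg (c l)) with h | h
  · exact hs0 k c hc hmono l h
  · exact hs1 k c hc hmono l h

end FPow
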