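import Pool.Agent.FPow.Defs

set_option autoImplicit false

/-!
# FPow: the exact statements to be proved

Paper proof: `Pool/Agent/FPow/Blueprint.lean.txt`.
-/

open MeasureTheory Filter Topology

namespace FPow

noncomputable section

/-! ## A. Null functions control the averages -/

/-- Van der Corput inequality. -/
def T_VDCI : Prop := ∀ (X : Type) [MeasurableSpace X] (μ : Measure X) [IsProbabilityMeasure μ]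
  (K H : ℕ), 1 ≤ H → H ≤ K → ∀ v : ℕ → X → ℂ, (∀ k, Bd (v k)) →
  nsq μ (fun x => av K (fun k => v k x)) ≤
    2 / H + 4 / H * ∑ h ∈ Finset.Ico 1 H, ‖∫ x, av K (fun k =>
      if k + h < K then v (k + h) x * (starRingEnd ℂ) (v k x) else 0) ∂μ‖

/-- One van der Corput step for families. -/
def T_PETSTEP : Prop := ∀ (R : Type) [CommRing R]
  (X : Type) [MeasurableSpace X] (μ : Measure X) [IsProbabilityMeasure μ] (S : ℤ → X → X),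
  IsAct μ S → ∀ (P : Fam R) (f : X → ℂ), Bd f →
  ∀ (ι : Type) [Fintype ι] [DecidableEq ι] (p : ι → Polynomial R) (st q : ι)
    (bad : Finset ℕ),
  (∀ h : ℕ, 1 ≤ h → h ∉ bad → Neg μ S P (newp p q h) ⟨Sum.inr st, by simp⟩ f) →
  Neg μ S P p st f

/-- Removal of constant polynomials. -/
def T_PETREM : Prop := ∀ (R : Type) [CommRing R]
  (X : Type) [MeasurableSpace X] (μ : Measure X) [IsProbabilityMeasure μ] (S : ℤ → X → X),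
  IsAct μ S → ∀ (P : Fam R) (f : X → ℂ), Bd f →
  ∀ (ι : Type) [Fintype ι] [DecidableEq ι] (p : ι → Polynomial R) (st : ι) (C : Finset ι),
  (∀ i ∈ C, (p i).natDegree = 0) →
  ∀ hst : st ∉ C, Neg μ S P (fun x : {x : ι // x ∉ C} => p x.1) ⟨st, hst⟩ f →
  Neg μ S P p st f

/-- Abstract polynomial exhaustion. -/
def T_PET : Prop := ∀ (R : Type) [CommRing R] (Sg : AddSubgroup R) (lam : R →+ ℤ)
  (X : Type) [MeasurableSpace X] (μ : Measure X) [IsProbabilityMeasure μ] (S : ℤ → X → X),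
  IsAct μ S → ∀ (P : Fam R) (f : X → ℂ), Bd f →
  (∀ (ι : Type) [Fintype ι] (p : ι → Polynomial R) (st : ι),
    St Sg lam 1 p st → Neg μ S P p st f) →
  ∀ D : ℕ, 1 ≤ D → ∀ (ι : Type) [Fintype ι] (p : ι → Polynomial R) (st : ι),
    St Sg lam D p st → Neg μ S P p st f

/-- Linear families in the main case. -/
def T_LINMAIN : Prop := ∀ (R : Type) [CommRing R] (Sg : AddSubgroup R) (lam : R →+ ℤ)
  (X : Type) [MeasurableSpace X] (μ : Measure X) [IsProbabilityMeasure μ] (S : ℤ → X → X),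
  IsAct μ S → ∀ (P : Fam R) (f : X → ℂ), Bd f → SS μ S P Sg lam f →
  ∀ (ι : Type) [Fintype ι] (p : ι → Polynomial R) (st : ι),
    St Sg lam 1 p st → Neg μ S P p st f

/-- The box averages are nonnegative, at most one, and monotone in every scale. -/
def T_QMONO : Prop := ∀ (X : Type) [MeasurableSpace X] (μ : Measure X) [IsProbabilityMeasure μ]
  (S : ℤ → X → X), IsAct μ S → ∀ f : X → ℂ, Bd f →
  (∀ l : List ℕ, 0 ≤ Q μ S l f ∧ Q μ S l f ≤ 1) ∧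
  (∀ l l' : List ℕ, l.Perm l' → Q μ S l f = Q μ S l' f) ∧
  (∀ l l' : List ℕ, List.Forall₂ (· ≤ ·) l l' → Q μ S l' f ≤ Q μ S l f)

/-- Recursion for `Lz`. -/
def T_LREC : Prop := ∀ (X : Type) [MeasurableSpace X] (μ : Measure X) [IsProbabilityMeasure μ]
  (S : ℤ → X → X), IsAct μ S → ∀ f : X → ℂ, Bd f → ∀ (s : ℕ) (ε : ℝ), 0 < ε →
  ∃ j0 : ℕ, ∀ j : ℕ, j0 ≤ j →
    (∑ a ∈ Finset.range (2 ^ j), ∑ b ∈ Finset.range (2 ^ j),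
      Lz μ S s (Dl S ((a : ℤ) - (b : ℤ)) f)) / ((2 : ℝ) ^ j * (2 : ℝ) ^ j)
      ≤ Lz μ S (s + 1) f + ε

/-- Linear families with integer slopes. -/
def T_LINZ : Prop := ∀ (X : Type) [MeasurableSpace X] (μ : Measure X) [IsProbabilityMeasure μ]
  (S : ℤ → X → X), IsAct μ S → ∀ f : X → ℂ, Bd f → Null μ S f →
  ∀ (ι : Type) [Fintype ι] (C : ι → ℤ) (st : ι), C st ≠ 0 → (∀ j, j ≠ st → C j ≠ C st) →
  ∀ ε : ℝ, 0 < ε → ∃ K0 : ℕ, ∀ K : ℕ, K0 ≤ K → ∀ (c : ℕ → ℂ) (G : ι → X → ℂ),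
    (∀ k, ‖c k‖ ≤ 1) → (∀ j, Bd (G j)) → G st = f →
    nsq μ (fun x => av K (fun k => c k * ∏ j, G j (S (C j * (k : ℤ)) x))) ≤ ε

/-- Quadratic families, uniformly in the place `a` and the shifts `b`. -/
def T_P2 : Prop := ∀ (X : Type) [MeasurableSpace X] (μ : Measure X) [IsProbabilityMeasure μ]
  (S : ℤ → X → X), IsAct μ S → ∀ f : X → ℂ, Bd f → Null μ S f →
  ∀ (ι : Type) [Fintype ι] (C : ι → ℤ) (st : ι), C st ≠ 0 → (∀ j, j ≠ st → C j ≠ C st) →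
  ∀ ε : ℝ, 0 < ε → ∃ K0 : ℕ, ∀ K : ℕ, K0 ≤ K →
    ∀ (a : ℤ) (b : ι → ℤ) (c : ℕ → ℂ) (G : ι → X → ℂ),
    (∀ k, ‖c k‖ ≤ 1) → (∀ j, Bd (G j)) → G st = f →
    nsq μ (fun x => av K (fun k =>
      c k * ∏ j, G j (S (C j * (a + (k : ℤ)) ^ 2 + b j) x))) ≤ ε

/-- The square of the system. -/
def T_NULLX : Prop := ∀ (X : Type) [MeasurableSpace X] (μ : Measure X) [IsProbabilityMeasure μ]
  (S : ℤ → X → X), IsAct μ S →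
  IsAct (μ.prod μ) (SX S) ∧ ∀ f : X → ℂ, Bd f → Null μ S f →
    Null μ S (fun x => (starRingEnd ℂ) (f x)) ∧
    Null (μ.prod μ) (SX S) (fun z => f z.1 * (starRingEnd ℂ) (f z.2))

/-- Blocks of consecutive values of the fastest slow sequence. -/
def T_BLOCK : Prop := ∀ (ι : Type) [Fintype ι] (β δ σ : ℝ) (β' δ' σ' : ι → ℝ),
  0 < β → 0 < δ → δ < 1 → (∀ i, 0 < β' i ∧ 0 < δ' i ∧ δ' i < δ) →
  ∀ (L : ℕ), 1 ≤ L → ∀ ε : ℝ, 0 < ε → ∀ᶠ N : ℕ in atTop,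
  ∃ (Bs : Finset ℤ) (E : ℤ → ι → ℤ) (ν : ℤ → ℝ), (∀ a, 0 ≤ ν a) ∧ ∑ a ∈ Bs, ν a ≤ 1 ∧
    ∀ w : ℕ → ℂ, (∀ n, ‖w n‖ ≤ 1) → ∃ c : ℤ → ℕ → ℂ, (∀ a t, ‖c a t‖ ≤ 1) ∧
      ∀ V : ℤ → (ι → ℤ) → ℂ, (∀ a e, ‖V a e‖ ≤ 1) →
        ‖av N (fun n => w n * V (slow β δ σ n) (fun i => slow (β' i) (δ' i) (σ' i) n)) -
          ∑ a ∈ Bs, (ν a : ℂ) * av L (fun t => c a t * V (a + (t : ℤ)) (E a))‖ ≤ ε

/-- Correlations of a null function along squares of slow sequences. -/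
def T_SLOWSS : Prop := ∀ (X : Type) [MeasurableSpace X] (μ : Measure X)
  [IsProbabilityMeasure μ] (S : ℤ → X → X), IsAct μ S → ∀ f : X → ℂ, Bd f → Null μ S f →
  ∀ (ι : Type) [Fintype ι] (β δ σ : ℝ) (β' δ' σ' : ι → ℝ),
  0 < β → 0 < δ → δ < 1 → (∀ i, 0 < β' i ∧ 0 < δ' i ∧ δ' i < δ) →
  ∀ (J : Type) [Fintype J] (z : J → ℤ) (z' : J → ι → ℤ) (g : J → X → ℂ),
  2 ≤ Fintype.card J → Function.Injective z →
  (∀ j, g j = f ∨ g j = fun x => (starRingEnd ℂ) (f x)) →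
  Tendsto (fun N : ℕ => (N : ℝ)⁻¹ * ∑ n ∈ Finset.range N, ‖∫ x, ∏ j,
    g j (S (z j * (slow β δ σ n) ^ 2 +
      ∑ i, z' j i * (slow (β' i) (δ' i) (σ' i) n) ^ 2) x) ∂μ‖) atTop (𝓝 0)

/-- Simultaneous recurrence of `r ^ d` from the Hales-Jewett theorem. -/
def T_HJ : Prop := ∀ (d s : ℕ), 1 ≤ d → ∀ ε : ℝ, 0 < ε → ∃ R : ℕ, 1 ≤ R ∧
  ∀ α : Fin s → ℝ, ∃ r : ℕ, 1 ≤ r ∧ r ≤ R ∧ ∀ i, ∃ z : ℤ, |(r : ℝ) ^ d * α i - z| ≤ ε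

/-- Partition of a window into progressions along which polynomials are almost constant
modulo one. -/
def T_PART : Prop := ∀ (D s K : ℕ), 1 ≤ K → ∀ ε : ℝ, 0 < ε →
  ∃ L R np : ℕ, 1 ≤ L ∧ np * K = L ∧ ∀ φ : Fin s → Polynomial ℝ,
    (∀ i, (φ i).natDegree ≤ D) → ∃ P : ℕ → ℕ × ℕ,
      (∀ u, 1 ≤ (P u).2 ∧ (P u).2 ≤ R) ∧
      (∀ u < np, (P u).1 + (P u).2 * (K - 1) < L) ∧
      (∀ v : ℕ → ℂ, ∑ n ∈ Finset.range L, v n =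
        ∑ u ∈ Finset.range np, ∑ t ∈ Finset.range K, v ((P u).1 + (P u).2 * t)) ∧
      ∀ u < np, ∀ i, ∀ t < K, ∃ z : ℤ,
        |(φ i).eval (((P u).1 + (P u).2 * t : ℕ) : ℝ) - (φ i).eval ((P u).1 : ℝ) - z| ≤ ε

/-- Taylor approximation of `x ^ c`. -/
def T_TAYLOR : Prop := ∀ c : ℝ, 0 < c → (∀ m : ℤ, c ≠ (m : ℝ)) → ∀ (L : ℕ) (η : ℝ), 0 < η →
  ∀ᶠ a : ℕ in atTop, ∀ x : ℕ, x ≤ L →
    |((a + x : ℕ) : ℝ) ^ c - ∑ u ∈ Finset.range (dg c + 1), bb c u (a : ℝ) * (x : ℝ) ^ u| ≤ η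

/-- Floors of an almost polynomial sequence that is almost constant modulo one. -/
def T_STRUCT : Prop := ∀ (d D q K : ℕ), d ≤ D → 1 ≤ q → d + 1 ≤ K →
  ∀ (y : ℕ → ℝ) (η : ℝ), η ≤ 1 / 2 ^ (d + 4) →
  2 * η ≤ Int.fract (y 0) → Int.fract (y 0) ≤ 1 - 2 * η →
  (∀ t < (q * D.factorial) * K, ∃ z : ℤ, |y t - y 0 - z| ≤ η) →
  (∀ t, t + (d + 1) < (q * D.factorial) * K →
    |∑ j ∈ Finset.range (d + 2), (-1 : ℝ) ^ (d + 1 - j) * ((d + 1).choose j : ℝ) * y (t + j)|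
      ≤ 1 / 4) →
  ∀ s < q * D.factorial, ∃ E : ℕ → ℤ,
    (∀ t < K, ⌊y (s + (q * D.factorial) * t)⌋ =
      ∑ u ∈ Finset.range (d + 1), E u * (t : ℤ) ^ u) ∧
    (∀ u, 1 ≤ u → (q : ℤ) ∣ E u) ∧
    (1 ≤ d → |(d.factorial : ℝ) * (E d : ℝ) - ∑ j ∈ Finset.range (d + 1),
      (-1 : ℝ) ^ (d - j) * (d.choose j : ℝ) * y (s + (q * D.factorial) * j)| ≤ 1 / 8)

/-- Few `n` have the fractional part of `n ^ c` close to an integer. -/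
def T_FRAC : Prop := ∀ c : ℝ, 0 < c → (∀ m : ℤ, c ≠ (m : ℝ)) → ∀ η : ℝ, 0 < η → η < 1 / 4 →
  ∀ᶠ N : ℕ in atTop, (((Finset.range N).filter (fun n : ℕ =>
    Int.fract ((n : ℝ) ^ c) < η ∨ 1 - η < Int.fract ((n : ℝ) ^ c))).card : ℝ) ≤ 5 * η * N

/-- The tents form a partition of unity. -/
def T_POU : Prop := ∀ (k : ℕ) (c : Fin k → ℝ) (M : ℕ) (a : ℝ), 2 ≤ M →
  (∀ κ : JJ c → ℕ, 0 ≤ phi c M κ a ∧ phi c M κ a ≤ 1) ∧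
  ∑ κ ∈ Fintype.piFinset (fun _ : JJ c => Finset.range M), phi c M κ a = 1

/-- Almost constancy modulo one of `x ^ c_i` along the progressions of a cell. -/
def T_CELLVAR : Prop := ∀ (k : ℕ) (c : Fin k → ℝ), GoodC c → ∀ (q K D : ℕ), 1 ≤ q →
  (∀ i, dg (c i) ≤ D) → D + 1 ≤ K → ∀ (L M : ℕ) (η : ℝ), 1 ≤ L → 2 ≤ M → 0 < η →
  ((D : ℝ) + 1) * (L : ℝ) ^ D / M ≤ η / 8 → ∀ (κ : JJ c → ℕ) (m r0 : ℕ), 1 ≤ r0 →
  m + r0 * (q * D.factorial * K - 1) < L →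
  (∀ i, ∀ t < q * D.factorial * K, ∃ z : ℤ, |∑ u : Fin (dg (c i) + 1),
    ((κ ⟨i, u⟩ : ℝ) / M) * (((m + r0 * t : ℕ) : ℝ) ^ (u : ℕ) - (m : ℝ) ^ (u : ℕ)) - z|
      ≤ η / 4) →
  ∀ᶠ a : ℕ in atTop, phi c M κ ((L : ℝ) * (a : ℝ)) ≠ 0 →
    ∀ i, ∀ t < q * D.factorial * K, ∃ z : ℤ,
      |((L * a + (m + r0 * t) : ℕ) : ℝ) ^ (c i) - ((L * a + m : ℕ) : ℝ) ^ (c i) - z| ≤ η

/-- Structure along the progressions of a cell. -/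
def T_CELLSTR : Prop := ∀ (k : ℕ) (c : Fin k → ℝ), GoodC c → ∀ (q K D : ℕ), 1 ≤ q →
  (∀ i, dg (c i) ≤ D) → D + 1 ≤ K → ∀ (L M : ℕ) (η : ℝ), 1 ≤ L → 2 ≤ M → 0 < η →
  η ≤ 1 / 2 ^ (D + 4) →
  ((D : ℝ) + 1) * (L : ℝ) ^ D / M ≤ η / 8 → ∀ (κ : JJ c → ℕ) (m r0 : ℕ), 1 ≤ r0 →
  m + r0 * (q * D.factorial * K - 1) < L →
  (∀ i, ∀ t < q * D.factorial * K, ∃ z : ℤ, |∑ u : Fin (dg (c i) + 1),
    ((κ ⟨i, u⟩ : ℝ) / M) * (((m + r0 * t : ℕ) : ℝ) ^ (u : ℕ) - (m : ℝ) ^ (u : ℕ)) - z|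
      ≤ η / 4) →
  ∀ᶠ a : ℕ in atTop, phi c M κ ((L : ℝ) * (a : ℝ)) ≠ 0 →
    (∀ i, 2 * η ≤ Int.fract (((L * a + m : ℕ) : ℝ) ^ (c i)) ∧
      Int.fract (((L * a + m : ℕ) : ℝ) ^ (c i)) ≤ 1 - 2 * η) →
    ∀ s < q * D.factorial, ∃ E : Fin k → ℕ → ℤ,
      StrAt c q (L * a) (L * a + (m + r0 * s)) (r0 * (q * D.factorial)) K E

/-- Decomposition of averages into averages along structured progressions. -/
def T_CELL : Prop := ∀ (k : ℕ) (c : Fin k → ℝ), GoodC c → ∀ (q K : ℕ), 1 ≤ q → 1 ≤ K →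
  (∀ i, dg (c i) + 1 ≤ K) → ∀ ε : ℝ, 0 < ε →
  ∃ (L M R np : ℕ) (P : (JJ c → ℕ) → ℕ → ℕ × ℕ), 1 ≤ L ∧ 2 ≤ M ∧ np * K = L ∧
    (∀ κ u, 1 ≤ (P κ u).2 ∧ (P κ u).2 ≤ R) ∧
    ∀ᶠ N : ℕ in atTop, ∃ (Gd : Finset (ℕ × (JJ c → ℕ) × ℕ))
      (E : ℕ × (JJ c → ℕ) × ℕ → Fin k → ℕ → ℤ),
      (∀ ω ∈ Gd, ω.1 < N ∧ (∀ p, ω.2.1 p < M) ∧ ω.2.2 < np ∧
        StrAt c q (L * ω.1) (L * ω.1 + (P ω.2.1 ω.2.2).1) (P ω.2.1 ω.2.2).2 K (E ω)) ∧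
      ∀ v : ℕ → ℂ, (∀ n, ‖v n‖ ≤ 1) →
        ‖av (L * N) v - ∑ ω ∈ Gd,
          ((phi c M ω.2.1 ((L : ℝ) * (ω.1 : ℝ)) / ((np : ℝ) * (N : ℝ)) : ℝ) : ℂ) *
            av K (fun t => v (L * ω.1 + (P ω.2.1 ω.2.2).1 + (P ω.2.1 ω.2.2).2 * t))‖ ≤ ε

/-- Null functions at a top index with exponent larger than one. -/
def T_SINF1 : Prop := ∀ (k : ℕ) (c : Fin k → ℝ), GoodC c → StrictMono c →
  ∀ l : Fin k, 1 ≤ dg (c l) → HSat (sqc c) l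

/-- Null functions at a top index with exponent smaller than one. -/
def T_SINF0 : Prop := ∀ (k : ℕ) (c : Fin k → ℝ), GoodC c → StrictMono c →
  ∀ l : Fin k, dg (c l) = 0 → HSat (sqc c) l

/-! ## B. Exponential sums -/

/-- Scalar van der Corput lemma. -/
def T_VDCS : Prop := ∀ u : ℕ → ℂ, (∀ n, ‖u n‖ ≤ 1) →
  (∀ h : ℕ, 1 ≤ h → Tendsto (fun N => av N (fun n => u (n + h) * (starRingEnd ℂ) (u n)))
    atTop (𝓝 0)) → Tendsto (fun N => av N u) atTop (𝓝 0)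

/-- Uniform Weyl theorem for quadratic polynomials. -/
def T_WEYLQ : Prop := ∀ t : ℝ, Irrational t → ∀ ε : ℝ, 0 < ε → ∃ K0 : ℕ, ∀ K : ℕ, K0 ≤ K →
  ∀ (a : ℤ) (b : ℝ), ‖av K (fun k => ee (t * ((a : ℝ) + k) ^ 2 + b * k))‖ ≤ ε

/-- Functions of uniform mean zero. -/
def T_UMZ : Prop :=
  (∀ b : ℝ, b ≠ 0 → UMZ (fun y => ee (b * y))) ∧
  ∀ (b t β σ : ℝ), 0 < β → Irrational t →
    UMZ (fun y => ee (b * y + t * ((⌊β * y + σ⌋ : ℤ) : ℝ) ^ 2))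

/-- Mean of a function of uniform mean zero times a slow function. -/
def T_SC1 : Prop := ∀ Φ Ψ : ℝ → ℂ, Measurable Φ → Measurable Ψ → (∀ y, ‖Φ y‖ ≤ 1) →
  (∀ y, ‖Ψ y‖ ≤ 1) → UMZ Φ → SlowR Ψ →
  Tendsto (fun Z : ℝ => ‖∫ z in (0 : ℝ)..Z, Φ z * Ψ z‖ / Z) atTop (𝓝 0)

/-- Change of variables in means. -/
def T_SC2 : Prop := ∀ (g : ℝ → ℂ) (δ : ℝ), Measurable g → (∀ y, ‖g y‖ ≤ 1) → 0 < δ → δ < 1 →
  Tendsto (fun Z : ℝ => ‖∫ z in (0 : ℝ)..Z, g z‖ / Z) atTop (𝓝 0) →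
  Tendsto (fun Z : ℝ => ‖∫ x in (0 : ℝ)..Z, g (x ^ δ)‖ / Z) atTop (𝓝 0)

/-- From integrals to sums for slow functions. -/
def T_SC3 : Prop := ∀ (G : ℝ → ℂ), Measurable G → (∀ y, ‖G y‖ ≤ 1) → SlowR G →
  Tendsto (fun Z : ℝ => ‖∫ x in (0 : ℝ)..Z, G x‖ / Z) atTop (𝓝 0) →
  Tendsto (fun N : ℕ => av N (fun n => G (n : ℝ))) atTop (𝓝 0)

/-- Averages of a fast oscillating function of `n ^ δ` times a slower function. -/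
def T_SLOWCORE : Prop := ∀ (δ : ℝ), 0 < δ → δ < 1 → ∀ Φ Ψ : ℝ → ℂ, Measurable Φ →
  Measurable Ψ → (∀ y, ‖Φ y‖ ≤ 1) → (∀ y, ‖Ψ y‖ ≤ 1) → UMZ Φ →
  SlowR (fun z => Ψ (z ^ (1 / δ))) → SlowR (fun x => Φ (x ^ δ) * Ψ x) →
  Tendsto (fun N => av N (fun n => Φ ((n : ℝ) ^ δ) * Ψ (n : ℝ))) atTop (𝓝 0)

/-- Slowly varying functions. -/
def T_SLOWEX : Prop :=
  (∀ κ : ℝ →₀ ℝ, (∀ γ ∈ κ.support, 0 < γ ∧ γ < 1) → SlowR (fun x => ee (ksum κ x))) ∧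
  (∀ t β δ σ : ℝ, 0 < β → 0 < δ → δ < 1 →
    SlowR (fun x => ee (t * ((⌊β * x ^ δ + σ⌋ : ℤ) : ℝ) ^ 2))) ∧
  (∀ Φ Ψ : ℝ → ℂ, (∀ y, ‖Φ y‖ ≤ 1) → (∀ y, ‖Ψ y‖ ≤ 1) → SlowR Φ → SlowR Ψ →
    SlowR (fun x => Φ x * Ψ x))

/-- Exponents smaller than one. -/
def T_SLOWALL : Prop :=
  (∀ κ : ℝ →₀ ℝ, κ ≠ 0 → (∀ γ ∈ κ.support, 0 < γ ∧ γ < 1) →
    Tendsto (fun N => av N (fun n => ee (ksum κ (n : ℝ)))) atTop (𝓝 0)) ∧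
  ∀ (ι : Type) [Fintype ι] (β δ σ t : ℝ) (β' δ' σ' t' : ι → ℝ),
    0 < β → 0 < δ → δ < 1 → (∀ i, 0 < β' i ∧ 0 < δ' i ∧ δ' i < δ) → Irrational t →
    ∀ κ : ℝ →₀ ℝ, (∀ γ ∈ κ.support, 0 < γ ∧ γ < 1) →
    Tendsto (fun N => av N (fun n => ee (ksum κ (n : ℝ) + t * (slow β δ σ n : ℝ) ^ 2 +
      ∑ i, t' i * (slow (β' i) (δ' i) (σ' i) n : ℝ) ^ 2))) atTop (𝓝 0)

/-- Differences of sums of powers. -/
def T_KDIFF : Prop := ∀ κ : ℝ →₀ ℝ, KSup κ → ∀ h : ℕ, 1 ≤ h → ∃ κ' : ℝ →₀ ℝ, KSup κ' ∧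
  (∀ γ ∈ κ'.support, ∃ γ0 ∈ κ.support, γ ≤ γ0 - 1) ∧
  (∀ γ0 ∈ κ.support, 1 < γ0 → (∀ γ ∈ κ.support, γ ≤ γ0) → κ' (γ0 - 1) ≠ 0) ∧
  Tendsto (fun n : ℕ => ksum κ ((n : ℝ) + h) - ksum κ (n : ℝ) - ksum κ' (n : ℝ)) atTop (𝓝 0)

/-- Weyl sums of real powers. -/
def T_W : Prop := ∀ κ : ℝ →₀ ℝ, κ ≠ 0 → KSup κ →
  Tendsto (fun N => av N (fun n => ee (ksum κ (n : ℝ)))) atTop (𝓝 0)

/-- Weyl sums of real powers with squares of slow sequences. -/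
def T_BT : Prop := ∀ (ι : Type) [Fintype ι] (β δ σ t : ℝ) (β' δ' σ' t' : ι → ℝ),
  0 < β → 0 < δ → δ < 1 → (∀ i, 0 < β' i ∧ 0 < δ' i ∧ δ' i < δ) → Irrational t →
  ∀ κ : ℝ →₀ ℝ, KSup κ →
  Tendsto (fun N => av N (fun n => ee (ksum κ (n : ℝ) + t * (slow β δ σ n : ℝ) ^ 2 +
    ∑ i, t' i * (slow (β' i) (δ' i) (σ' i) n : ℝ) ^ 2))) atTop (𝓝 0)

/-- Approximation of periodic step functions by trigonometric polynomials. -/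
def T_APX : Prop := ∀ (q : ℕ), 1 ≤ q → ∀ (H : ℕ → ℂ), (∀ r, ‖H r‖ ≤ 1) → ∀ ε : ℝ, 0 < ε →
  ∃ (s : Finset ℤ) (p w : ℤ → ℂ), (0 : ℤ) ∈ s ∧
    (∀ y : ℝ, ‖H (⌊(q : ℝ) * Int.fract y⌋.toNat) - ∑ m ∈ s, p m * ee ((m : ℝ) * y)‖ ≤
      (∑ m ∈ s, w m * ee ((m : ℝ) * y)).re) ∧
    ‖w 0‖ ≤ ε ∧ ‖p 0 - av q H‖ ≤ ε ∧ ∀ y : ℝ, ‖∑ m ∈ s, p m * ee ((m : ℝ) * y)‖ ≤ 2

/-- Averages of products of step functions of `n ^ c_i / q` and a further factor. -/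
def T_STEP : Prop := ∀ (k : ℕ) (c : Fin k → ℝ), GoodC c → StrictMono c → ∀ (q : ℕ), 1 ≤ q →
  ∀ (I : Finset (Fin k)) (H : Fin k → ℕ → ℂ), (∀ i r, ‖H i r‖ ≤ 1) →
  ∀ (ψ : ℕ → ℂ), (∀ n, ‖ψ n‖ ≤ 1) → ∀ z : ℂ,
  (∀ m : Fin k → ℤ, (∀ i, i ∉ I → m i = 0) → Tendsto (fun N => av N (fun n =>
    ψ n * ee (∑ i, (m i : ℝ) * ((n : ℝ) ^ (c i) / q)))) atTop
      (𝓝 (if m = 0 then z else 0))) →
  Tendsto (fun N => av N (fun n => ψ n * ∏ i ∈ I, H i ((pw (c i) n % (q : ℤ)).toNat))) atTop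
    (𝓝 (z * ∏ i ∈ I, av q (H i)))

/-- All frequencies rational. -/
def T_EQ : Prop := ∀ (k : ℕ) (c : Fin k → ℝ), GoodC c → StrictMono c → ∀ τ : Fin k → ℝ,
  (∀ i, ¬ Irrational (τ i)) → Tendsto (fun N => av N (fun n =>
    ee (∑ i, τ i * (sqc c i n : ℝ)))) atTop (𝓝 (∏ i, Gs (τ i)))

/-- The largest irrational frequency belongs to an exponent smaller than one. -/
def T_E1S : Prop := ∀ (k : ℕ) (c : Fin k → ℝ), GoodC c → StrictMono c → ∀ τ : Fin k → ℝ,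
  ∀ l : Fin k, Irrational (τ l) → (∀ i, l < i → ¬ Irrational (τ i)) → dg (c l) = 0 →
  Tendsto (fun N => av N (fun n => ee (∑ i, τ i * (sqc c i n : ℝ)))) atTop (𝓝 0)

/-- Weyl inequality with a trigonometric polynomial of the leading coefficient. -/
def T_WEYL : Prop := ∀ D : ℕ, 1 ≤ D → ∃ C : ℝ, ∀ K : ℕ, 1 ≤ K →
  ∃ (s : Finset ℤ) (w : ℤ → ℝ), (∀ m, 0 ≤ w m) ∧ (0 : ℤ) ∈ s ∧ w 0 ≤ C / K ∧
    ∀ p : Polynomial ℝ, p.natDegree ≤ D →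
      ‖av K (fun t => ee (p.eval (t : ℝ)))‖ ^ (2 ^ D) ≤
        (∑ m ∈ s, (w m : ℂ) * ee ((m : ℝ) * p.coeff D)).re

/-- Joint distribution of the Taylor coefficients and squares of slow sequences. -/
def T_JT : Prop := ∀ (k : ℕ) (c : Fin k → ℝ), GoodC c → ∀ (L M : ℕ), 1 ≤ L → 2 ≤ M →
  ∀ κ : JJ c → ℕ, ∀ (ι : Type) [Fintype ι] (β δ σ t : ℝ) (β' δ' σ' t' : ι → ℝ),
  0 < β → 0 < δ → δ < 1 → (∀ i, 0 < β' i ∧ 0 < δ' i ∧ δ' i < δ) → Irrational t →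
  Tendsto (fun N => av N (fun n => (phi c M κ ((L : ℝ) * (n : ℝ)) : ℂ) *
    ee (t * (slow β δ σ n : ℝ) ^ 2 +
      ∑ i, t' i * (slow (β' i) (δ' i) (σ' i) n : ℝ) ^ 2))) atTop (𝓝 0)

/-- The largest irrational frequency belongs to an exponent larger than one. -/
def T_E1B : Prop := ∀ (k : ℕ) (c : Fin k → ℝ), GoodC c → StrictMono c → ∀ τ : Fin k → ℝ,
  ∀ l : Fin k, Irrational (τ l) → (∀ i, l < i → ¬ Irrational (τ i)) → 1 ≤ dg (c l) →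
  Tendsto (fun N => av N (fun n => ee (∑ i, τ i * (sqc c i n : ℝ)))) atTop (𝓝 0)

/-- Exponential sums. -/
def T_E12 : Prop := ∀ (k : ℕ) (c : Fin k → ℝ), GoodC c → StrictMono c → HE12 (sqc c)

/-- Gauss means. -/
def T_GAUSS : Prop := GamOK (fun t => ‖Gs t‖)

/-! ## C. Degree lowering -/

/-- Herglotz theorem for the correlations of `f`. -/
def T_SPEC : Prop := ∀ (X : Type) [MeasurableSpace X] (μ : Measure X) [IsProbabilityMeasure μ]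
  (S : ℤ → X → X), IsAct μ S → ∀ f : X → ℂ, Bd f →
  ∃ σ : Measure ℝ, IsFiniteMeasure σ ∧ σ Set.univ ≤ 1 ∧ IsSpec μ S f σ

/-- Norms of sums in terms of the spectral measure. -/
def T_SPECN : Prop := ∀ (X : Type) [MeasurableSpace X] (μ : Measure X)
  [IsProbabilityMeasure μ] (S : ℤ → X → X), IsAct μ S → ∀ f : X → ℂ, Bd f →
  ∀ σ : Measure ℝ, IsFiniteMeasure σ → IsSpec μ S f σ →
  ∀ (N : ℕ) (c : ℕ → ℂ) (e : ℕ → ℤ),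
    nsq μ (fun x => ∑ n ∈ Finset.range N, c n * f (S (e n) x)) =
      ∫ t : ℝ, ‖∑ n ∈ Finset.range N, c n * ee ((e n : ℝ) * t)‖ ^ 2 ∂σ

/-- Atoms of the spectral measure give eigenfunctions. -/
def T_EIG : Prop := ∀ (X : Type) [MeasurableSpace X] (μ : Measure X) [IsProbabilityMeasure μ]
  (S : ℤ → X → X), IsAct μ S → Ergodic (S 1) μ → ∀ f : X → ℂ, Bd f →
  ∀ σ : Measure ℝ, IsFiniteMeasure σ → IsSpec μ S f σ → ∀ t : ℝ, σ {t} ≠ 0 →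
  ∃ χ : X → ℂ, EigF μ S t χ ∧
    ‖∫ x, f x * (starRingEnd ℂ) (χ x) ∂μ‖ ^ 2 = (σ {t}).toReal

/-- Inverse theorem of order two. -/
def T_UINV : Prop := ∀ (X : Type) [MeasurableSpace X] (μ : Measure X) [IsProbabilityMeasure μ]
  (S : ℤ → X → X), IsAct μ S → Ergodic (S 1) μ → ∀ f : X → ℂ, Bd f → ∀ δ : ℝ, 0 < δ →
  (∀ j : ℕ, δ ≤ Q μ S [j] f) → ∃ (t : ℝ) (χ : X → ℂ), EigF μ S t χ ∧
    δ / 2 ≤ ‖∫ x, f x * (starRingEnd ℂ) (χ x) ∂μ‖ ^ 2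

/-- Failure of nullness. -/
def T_NOTNULL : Prop := ∀ (X : Type) [MeasurableSpace X] (μ : Measure X)
  [IsProbabilityMeasure μ] (S : ℤ → X → X), IsAct μ S → ∀ f : X → ℂ, Bd f →
  ¬ Null μ S f → ∃ (s : ℕ) (δ : ℝ), 0 < δ ∧ ∀ j : ℕ, δ ≤ Q μ S (List.replicate s j) f

/-- Box averages in terms of `DlF`. -/
def T_QBOX : Prop := ∀ (X : Type) [MeasurableSpace X] (μ : Measure X) [IsProbabilityMeasure μ]
  (S : ℤ → X → X), IsAct μ S → ∀ f : X → ℂ, Bd f → ∀ (r j : ℕ) (l : List ℕ),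
  Q μ S (List.replicate r j ++ l) f =
    (∑ a : Fin r → Fin (2 ^ j), ∑ b : Fin r → Fin (2 ^ j),
      Q μ S l (DlF S (fun i => (((a i : ℕ) : ℤ) - ((b i : ℕ) : ℤ))) f)) /
      (((2 : ℝ) ^ j) ^ r * ((2 : ℝ) ^ j) ^ r)

/-- Box Cauchy-Schwarz inequality. -/
def T_BCS : Prop := ∀ (X : Type) [MeasurableSpace X] (μ : Measure X) [IsProbabilityMeasure μ]
  (r : ℕ), 1 ≤ r → ∀ (κ : Type) [Fintype κ] [Nonempty κ] (Φ : (Fin r → κ) → X → ℂ)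
  (φ : Fin r → (Fin r → κ) → X → ℂ), (∀ b, Bd (Φ b)) → (∀ i b, Bd (φ i b)) →
  (∀ (i : Fin r) (b b' : Fin r → κ), (∀ j, j ≠ i → b j = b' j) → φ i b = φ i b') →
  ‖(((Fintype.card κ : ℕ) : ℂ) ^ r)⁻¹ * ∑ b : Fin r → κ,
      ∫ x, Φ b x * ∏ i, φ i b x ∂μ‖ ^ (2 ^ r) ≤
    ((((Fintype.card κ : ℕ) : ℂ) ^ r * ((Fintype.card κ : ℕ) : ℂ) ^ r)⁻¹ *
      ∑ b : Fin r → κ, ∑ b' : Fin r → κ,
        ∫ x, ∏ A : Finset (Fin r), cj A.card (Φ (mix b b' A) x) ∂μ).re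

/-- Weak limits along ultrafilters. -/
def T_WLIM : Prop := ∀ (X : Type) [MeasurableSpace X] (μ : Measure X) [IsProbabilityMeasure μ]
  (F : ℕ → X → ℂ), (∀ n, Bd (F n)) → ∀ U : Ultrafilter ℕ, ∃ G : X → ℂ, Bd G ∧
    ∀ φ : X → ℂ, Bd φ →
      Tendsto (fun n => ∫ x, F n x * φ x ∂μ) (U : Filter ℕ) (𝓝 (∫ x, G x * φ x ∂μ))

/-- Interchange of dual functions and differences. -/
def T_IC : Prop := ∀ (X : Type) [MeasurableSpace X] (μ : Measure X) [IsProbabilityMeasure μ]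
  (S : ℤ → X → X), IsAct μ S → ∀ (k : ℕ) (a : Fin k → ℕ → ℤ) (I : Finset (Fin k))
  (b : ℕ → ℤ) (γ : ℝ → ℝ), GamOK γ → CBd μ S a I b γ →
  ∀ (w : ℕ → ℂ), (∀ n, ‖w n‖ = 1) → ∀ (g : ℕ → X → ℂ), (∀ n, Bd (g n)) →
  ∀ f : Fin k → X → ℂ, (∀ i, Bd (f i)) → ∀ U : Ultrafilter ℕ, (U : Filter ℕ) ≤ atTop →
  ∀ F : X → ℂ, Bd F → (∀ φ : X → ℂ, Bd φ → Tendsto (fun N => ∫ x,
      av N (fun n => w n * (g N (S (-(b n)) x) * ∏ i ∈ I, f i (S (a i n - b n) x))) * φ x ∂μ)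
      (U : Filter ℕ) (𝓝 (∫ x, F x * φ x ∂μ))) →
  ICP μ S γ F

/-- One step of the degree lowering. -/
def T_DLOW : Prop := ∀ (X : Type) [MeasurableSpace X] (μ : Measure X) [IsProbabilityMeasure μ]
  (S : ℤ → X → X), IsAct μ S → Ergodic (S 1) μ → ∀ γ : ℝ → ℝ, GamOK γ →
  ∀ F : X → ℂ, Bd F → ICP μ S γ F → ∀ r : ℕ, 1 ≤ r →
  (∃ δ : ℝ, 0 < δ ∧ ∀ j : ℕ, δ ≤ Q μ S (List.replicate (r + 1) j) F) →
  ∃ δ : ℝ, 0 < δ ∧ ∀ j : ℕ, δ ≤ Q μ S (List.replicate r j) F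

/-- The other functions may be assumed periodic. -/
def T_C1 : Prop := ∀ (X : Type) [MeasurableSpace X] (μ : Measure X) [IsProbabilityMeasure μ]
  (S : ℤ → X → X), IsAct μ S → Ergodic (S 1) μ → ∀ (k : ℕ) (a : Fin k → ℕ → ℤ), HSINF a →
  ∀ l : ℕ, l < k → ClaimA μ S a l → ClaimB μ S a l → ClaimC μ S a l

/-- Approximation by periodic functions and functions orthogonal to them. -/
def T_DEC : Prop := ∀ (X : Type) [MeasurableSpace X] (μ : Measure X) [IsProbabilityMeasure μ]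
  (S : ℤ → X → X), IsAct μ S → ∀ f : X → ℂ, Bd f → ∀ ε : ℝ, 0 < ε →
  ∃ (φ ρ : X → ℂ) (q : ℕ), Bd φ ∧ Measurable ρ ∧ (∀ x, ‖ρ x‖ ≤ 2) ∧ RatOrth μ S ρ ∧ 1 ≤ q ∧
    (∀ᵐ x ∂μ, φ (S (q : ℤ) x) = φ x) ∧ nsq μ (fun x => f x - φ x - ρ x) ≤ ε

/-- Replacement of functions by periodic ones. -/
def T_REPL : Prop := ∀ (X : Type) [MeasurableSpace X] (μ : Measure X) [IsProbabilityMeasure μ]
  (S : ℤ → X → X), IsAct μ S → ∀ (k : ℕ) (a : Fin k → ℕ → ℤ) (l : ℕ) (I : Finset (Fin k))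
  (t : Fin k → ℝ), (∀ i ∈ I, (i : ℕ) < l) →
  (∀ f : Fin k → X → ℂ, (∀ i, Bd (f i)) → (∃ i ∈ I, RatOrth μ S (f i)) →
    Tendsto (fun N => nsq μ (AV a S l f t N)) atTop (𝓝 0)) →
  ∀ f : Fin k → X → ℂ, (∀ i, Bd (f i)) → ∀ ε : ℝ, 0 < ε → ∃ φ : Fin k → X → ℂ,
    (∀ i, Bd (φ i)) ∧ (∀ i, i ∉ I → φ i = f i) ∧
    (∀ i ∈ I, ∃ q : ℕ, 1 ≤ q ∧ ∀ᵐ x ∂μ, φ i (S (q : ℤ) x) = φ i x) ∧
    ∀ᶠ N in atTop, nsq μ (fun x => AV a S l f t N x - AV a S l φ t N x) ≤ ε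

/-- Components of periodic functions. -/
def T_COMP : Prop := ∀ (X : Type) [MeasurableSpace X] (μ : Measure X) [IsProbabilityMeasure μ]
  (S : ℤ → X → X), IsAct μ S → ∀ φ : X → ℂ, Bd φ → ∀ q : ℕ, 1 ≤ q →
  (∀ᵐ x ∂μ, φ (S (q : ℤ) x) = φ x) → ∃ φp : ℕ → X → ℂ, (∀ p, Bd (φp p)) ∧
    (∀ (p : ℕ) (a : ℤ), ∀ᵐ x ∂μ, φp p (S a x) = ee ((p : ℝ) / q * a) * φp p x) ∧
    (∀ᵐ x ∂μ, φ x = ∑ p ∈ Finset.range q, φp p x) ∧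
    (∀ᵐ x ∂μ, ‖∑ p ∈ Finset.range q, Gs ((p : ℝ) / q) * φp p x‖ ≤ 1)

/-- A single function orthogonal to the periodic ones. -/
def T_SING : Prop := ∀ (X : Type) [MeasurableSpace X] (μ : Measure X) [IsProbabilityMeasure μ]
  (S : ℤ → X → X), IsAct μ S → Ergodic (S 1) μ → ∀ (k : ℕ) (a : Fin k → ℕ → ℤ), HE12 a →
  ∀ (l : Fin k) (τ : Fin k → ℝ) (f : X → ℂ), Bd f → RatOrth μ S f →
  Tendsto (fun N => nsq μ (fun x => av N (fun n =>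
    ee (∑ i ∈ Finset.univ.erase l, τ i * (a i n : ℝ)) * f (S (a l n) x)))) atTop (𝓝 0)

/-- Vanishing at the next level. -/
def T_C2 : Prop := ∀ (X : Type) [MeasurableSpace X] (μ : Measure X) [IsProbabilityMeasure μ]
  (S : ℤ → X → X), IsAct μ S → Ergodic (S 1) μ → ∀ (k : ℕ) (a : Fin k → ℕ → ℤ), HE12 a →
  ∀ l : ℕ, l < k → ClaimC μ S a l → ClaimA μ S a (l + 1)

/-- Convergence from vanishing. -/
def T_AB : Prop := ∀ (X : Type) [MeasurableSpace X] (μ : Measure X) [IsProbabilityMeasure μ]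
  (S : ℤ → X → X), IsAct μ S → ∀ (k : ℕ) (a : Fin k → ℕ → ℤ), HE12 a →
  ∀ l : ℕ, ClaimA μ S a l → ClaimB μ S a l

/-- Convergence for ergodic invertible systems, abstract sequences. -/
def T_MAINABS : Prop := ∀ (X : Type) [MeasurableSpace X] (μ : Measure X)
  [IsProbabilityMeasure μ] (S : ℤ → X → X), IsAct μ S → Ergodic (S 1) μ →
  ∀ (k : ℕ) (a : Fin k → ℕ → ℤ), HSINF a → HE12 a → ∀ f : Fin k → X → ℂ, (∀ i, Bd (f i)) →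
  ∀ ε : ℝ, 0 < ε → ∃ N0 : ℕ, ∀ N M : ℕ, N0 ≤ N → N0 ≤ M →
    nsq μ (fun x => av N (fun n => ∏ i, f i (S (a i n) x)) -
      av M (fun n => ∏ i, f i (S (a i n) x))) ≤ ε

/-! ## D. Reductions -/

/-- The shift on two-sided sequences. -/
def shf {E : Type} (a : ℤ) (y : ℤ → E) : ℤ → E := fun n => y (n + a)

/-- Two-sided extension of the process `n ↦ (f_i (T^n x))_i`. -/
def T_EXT : Prop := ∀ (X : Type) [MeasurableSpace X] (μ : Measure X) [IsProbabilityMeasure μ]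
  (T : X → X), MeasurePreserving T μ μ → ∀ (k : ℕ) (f : Fin k → X → ℝ),
  (∀ i, Measurable (f i)) → ∀ C : ℝ, (∀ i x, |f i x| ≤ C) →
  ∃ ν : Measure (ℤ → Fin k → ℝ), IsProbabilityMeasure ν ∧ IsAct ν shf ∧
    ∀ (m : ℕ) (φ : (Fin m → Fin k → ℝ) → ℝ), Continuous φ → (∃ B : ℝ, ∀ u, |φ u| ≤ B) →
      ∫ x, φ (fun j i => f i (T^[(j : ℕ)] x)) ∂μ =
        ∫ y, φ (fun j i => y ((j : ℕ) : ℤ) i) ∂ν

/-- Ergodic decomposition. -/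
def T_ERGD : Prop := ∀ (X : Type) [MeasurableSpace X] [StandardBorelSpace X]
  (μ : Measure X) [IsProbabilityMeasure μ] (S : ℤ → X → X), IsAct μ S →
  ∃ κ : X → Measure X, (∀ x, IsProbabilityMeasure (κ x)) ∧
    (∀ᵐ x ∂μ, IsAct (κ x) S ∧ Ergodic (S 1) (κ x)) ∧
    ∀ g : X → ℝ, Measurable g → (∃ B : ℝ, ∀ x, |g x| ≤ B) →
      AEStronglyMeasurable (fun x => ∫ y, g y ∂(κ x)) μ ∧
      ∫ x, g x ∂μ = ∫ x, (∫ y, g y ∂(κ x)) ∂μ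

/-- From ergodic invertible systems to the frozen statement. -/
def T_FIN : Prop :=
  (∀ (k : ℕ) (c : Fin k → ℝ), GoodC c → StrictMono c →
    ∀ (X : Type) [MeasurableSpace X] (μ : Measure X) [IsProbabilityMeasure μ]
      (S : ℤ → X → X), IsAct μ S → Ergodic (S 1) μ →
    ∀ f : Fin k → X → ℂ, (∀ i, Bd (f i)) → ∀ ε : ℝ, 0 < ε → ∃ N0 : ℕ, ∀ N M : ℕ,
      N0 ≤ N → N0 ≤ M →
      nsq μ (fun x => av N (fun n => ∏ i, f i (S (sqc c i n) x)) -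
        av M (fun n => ∏ i, f i (S (sqc c i n) x))) ≤ ε) →
  ∀ (k : ℕ) (c : Fin k → ℝ), Function.Injective c →
      (∀ i, 0 < c i ∧ ∀ m : ℤ, c i ≠ (m : ℝ)) →
      ∀ (X : Type) [MeasurableSpace X] (μ : MeasureTheory.Measure X)
        [MeasureTheory.IsProbabilityMeasure μ] (T : X → X),
        MeasureTheory.MeasurePreserving T μ μ →
        ∀ f : Fin k → X → ℝ, (∀ i, Measurable (f i)) →
          (∀ i, ∃ C : ℝ, ∀ x, |f i x| ≤ C) →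
          ∃ g : X → ℝ, MeasureTheory.MemLp g 2 μ ∧
            Filter.Tendsto
              (fun N : ℕ => MeasureTheory.eLpNorm
                (fun x => (1 / (N : ℝ)) * ∑ n ∈ Finset.Icc 1 N,
                    ∏ i : Fin k, f i (T^[⌊(n : ℝ) ^ c i⌋₊ ^ 2] x) - g x) 2 μ)
              Filter.atTop (nhds 0)

end

end FPow
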